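import Pool.Agent.Q122.KP.Tables

/-!
# The Kneser graphs `K(m,t)` with `t ≥ 5`, `m ≥ (5t-1)/2`, `C(m-t,t) ≤ 511` are Class 0
-/

namespace Pool.Agent.Results.MP_9946dc_co.KneserClassZero

open Pool.Agent.Q122.KP

/-- **Full positive answer to Q1.** For all integers `t ≥ 5` and `m ≥ (5t-1)/2` with
`C(m-t,t) ≤ 511`, the Kneser graph `K(m,t)` is of Class 0: its pebbling number is its number of
vertices. -/
theorem result (m t : ℕ) (ht : 5 ≤ t) (hm : (5 * (t : ℚ) - 1) / 2 ≤ (m : ℚ))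
    (hc : (m - t).choose t ≤ 511) : ClassZero (kneser m t) := by
  apply main ht _ hc
  have h1 : 5 * (t : ℚ) ≤ 2 * m + 1 := by linarith
  have h2 : 5 * t ≤ 2 * m + 1 := by exact_mod_cast h1
  omega

end Pool.Agent.Results.MP_9946dc_co.KneserClassZero
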